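import Pool.Agent.Q166.TR.Poly

/-!
# Traces of `C*(ℤ² ⋉ ℤ[1/6])`: polynomials in a translation, consequences
-/

set_option autoImplicit false

open MeasureTheory Filter Topology Finset
open scoped ComplexOrder ComplexConjugate

namespace Pool.Agent.Q166.TR

open Pool.Agent.W763.Tr Pool.Agent.TH654.FC Pool.Agent.Y253.TR

section

variable {G : Subgroup (Equiv.Perm ℚ)} {τ : ℤ → G} {φ : G → ℂ} {S6 : G} {μ : Measure UnitAddCircle}

lemma qf_eq (D : Data G τ φ S6 μ) {g : G} {r : ℚ} (hg : ∀ x, (g : Equiv.Perm ℚ) x = x + r) :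
    ∃ m : ℤ, (∀ P : Polynomial ℂ, qf φ P g = ((∫ x, sqm P x ∂(zim μ m) : ℝ) : ℂ)) ∧
      ∀ a : ℕ, φ (g ^ a) = ∫ x, (fourier (a : ℤ) x : ℂ) ∂(zim μ m) := by
  have := D.prob
  obtain ⟨m, -, hm, hm'⟩ := val D hg
  refine ⟨m, fun P => ?_, hm'⟩
  have := prob_zim μ m
  rw [integral_sqm P (zim μ m)]
  unfold qf
  exact sum_congr rfl fun i _ => sum_congr rfl fun j _ => by rw [hm]

end

lemma sqm_X_pow (n : ℕ) (x : UnitAddCircle) :
    sqm (Polynomial.X ^ n - 1) x = 2 * (1 - (fourier (n : ℤ) x : ℂ).re) := by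
  have h1 : ‖(fourier (n : ℤ) x : ℂ)‖ = 1 := by
    rw [fourier_apply]; exact Circle.norm_coe _
  unfold sqm
  rw [Polynomial.eval_sub, Polynomial.eval_pow, Polynomial.eval_X, Polynomial.eval_one,
    ← fourier_coe_pow, ← Complex.normSq_eq_norm_sq, Complex.normSq_sub]
  rw [Complex.normSq_eq_norm_sq, h1]
  simp
  ring

/-- **The uniform lower bound.** -/
theorem lower {P : Polynomial ℂ}
    (hP0 : ∀ z : ℂ, ‖z‖ = 1 → ∃ i j : ℕ, P.eval (z ^ (2 ^ i * 3 ^ j)) ≠ 0) : ∃ ε : ℝ, 0 < ε ∧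
    ∀ (s2 s3 t : Equiv.Perm ℚ), (∀ x : ℚ, s2 x = 2 * x) → (∀ x : ℚ, s3 x = 3 * x) →
    (∀ x : ℚ, t x = x + 1) →
    ∀ (G : Subgroup (Equiv.Perm ℚ)), G = Subgroup.closure {s2, s3, t} →
    ∀ φ : G → ℂ, φ 1 = 1 → (∀ g h : G, φ (h * g * h⁻¹) = φ g) →
      (∀ (s : Finset G) (c : G → ℂ), 0 ≤ ∑ i ∈ s, ∑ j ∈ s, star (c j) * c i * φ (j⁻¹ * i)) →
      ∀ g : G, (∃ r : ℚ, ∀ x : ℚ, (g : Equiv.Perm ℚ) x = x + r) → ε ≤ (qf φ P g).re := by
  -- a level
  have hx0 : ∀ x : UnitAddCircle, ∃ i j : ℕ, 0 < sqm P ((2 ^ i * 3 ^ j) • x) := by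
    intro x
    obtain ⟨i, j, hij⟩ := hP0 (fourier 1 x) (by rw [fourier_one]; exact Circle.norm_coe _)
    refine ⟨i, j, lt_of_le_of_ne (sqm_nonneg P _) fun h => hij ?_⟩
    have h2 := sqm_eq_zero.1 h.symm
    rw [fourier_one, AddCircle.toCircle_nsmul] at h2
    push_cast at h2
    rw [fourier_one]
    exact h2
  -- compactness
  have hcov : (Set.univ : Set UnitAddCircle) ⊆ ⋃ k : ℕ, {x | ∃ i ≤ k, ∃ j ≤ k,
      ((k : ℝ) + 1)⁻¹ < sqm P ((2 ^ i * 3 ^ j) • x)} := by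
    intro x _
    obtain ⟨i, j, hij⟩ := hx0 x
    obtain ⟨n, hn⟩ := exists_nat_one_div_lt hij
    rw [one_div] at hn
    refine Set.mem_iUnion.2 ⟨max n (max i j), i, by omega, j, by omega, lt_of_le_of_lt ?_ hn⟩
    have : (n : ℝ) ≤ ((max n (max i j) : ℕ) : ℝ) := by exact_mod_cast le_max_left _ _
    gcongr
  have hopen : ∀ k : ℕ, IsOpen {x : UnitAddCircle | ∃ i ≤ k, ∃ j ≤ k,
      ((k : ℝ) + 1)⁻¹ < sqm P ((2 ^ i * 3 ^ j) • x)} := by
    intro k
    have : {x : UnitAddCircle | ∃ i ≤ k, ∃ j ≤ k,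
        ((k : ℝ) + 1)⁻¹ < sqm P ((2 ^ i * 3 ^ j) • x)} = ⋃ i ≤ k, ⋃ j ≤ k,
        {x : UnitAddCircle | ((k : ℝ) + 1)⁻¹ < sqm P ((2 ^ i * 3 ^ j) • x)} := by
      ext x; simp
    rw [this]
    refine isOpen_biUnion fun i _ => isOpen_biUnion fun j _ => isOpen_lt continuous_const ?_
    exact (continuous_sqm P).comp (by fun_prop)
  have hmono : Directed (· ⊆ ·) (fun k : ℕ => {x : UnitAddCircle | ∃ i ≤ k, ∃ j ≤ k,
      ((k : ℝ) + 1)⁻¹ < sqm P ((2 ^ i * 3 ^ j) • x)}) := by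
    apply Monotone.directed_le
    rintro a b hab x ⟨i, hi, j, hj, h⟩
    refine ⟨i, hi.trans hab, j, hj.trans hab, lt_of_le_of_lt ?_ h⟩
    have : (a : ℝ) ≤ b := by exact_mod_cast hab
    gcongr
  obtain ⟨k, hk⟩ := isCompact_univ.elim_directed_cover _ hopen hcov hmono
  set K : ℝ := (k : ℝ) + 1 with hK
  have hKpos : 0 < K := by positivity
  refine ⟨K⁻¹ / ((k + 1 : ℕ) * (k + 1 : ℕ) : ℝ), by positivity,
    fun s2 s3 t hs2 hs3 ht G hG φ h1 hcl hpd g ⟨r, hg⟩ => ?_⟩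
  obtain ⟨τ, S6, μ, D⟩ := data_of hs2 hs3 ht hG h1 hcl hpd
  have := D.prob
  obtain ⟨m, hm, -⟩ := qf_eq D hg
  rw [hm, Complex.ofReal_re]
  set ν := zim μ m with hν
  have hprob : IsProbabilityMeasure ν := prob_zim μ m
  have h2 : MeasurePreserving (fun x : UnitAddCircle => 2 • x) ν ν := mp_zim D.mp2 m
  have h3 : MeasurePreserving (fun x : UnitAddCircle => 3 • x) ν ν := mp_zim D.mp3 m
  have hmp : ∀ i j : ℕ, MeasurePreserving (fun x : UnitAddCircle => (2 ^ i * 3 ^ j) • x) ν ν := by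
    intro i j
    have e := (Pool.Agent.H847R3.XpXq.mp_pow h2 i).comp (Pool.Agent.H847R3.XpXq.mp_pow h3 j)
    convert e using 1
    funext x
    simp only [Function.comp, mul_smul]
  have hint : ∀ i j : ℕ, Integrable (fun x => sqm P ((2 ^ i * 3 ^ j) • x)) ν := fun i j =>
    ((continuous_sqm P).comp (by fun_prop)).integrable_of_hasCompactSupport
      (HasCompactSupport.of_compactSpace _)
  have hsame : ∀ i j : ℕ, ∫ x, sqm P ((2 ^ i * 3 ^ j) • x) ∂ν = ∫ x, sqm P x ∂ν := by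
    intro i j
    conv_rhs => rw [← (hmp i j).map_eq]
    rw [integral_map (hmp i j).measurable.aemeasurable
      (continuous_sqm P).aestronglyMeasurable]
  have hle : K⁻¹ ≤ ∑ i ∈ range (k + 1), ∑ j ∈ range (k + 1), ∫ x, sqm P x ∂ν := by
    calc K⁻¹ = ∫ _x : UnitAddCircle, K⁻¹ ∂ν := by simp
      _ ≤ ∫ x, ∑ i ∈ range (k + 1), ∑ j ∈ range (k + 1), sqm P ((2 ^ i * 3 ^ j) • x) ∂ν := by
          refine integral_mono (integrable_const _) (integrable_finsetSum _ fun i _ =>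
            integrable_finsetSum _ fun j _ => hint i j) fun x => ?_
          obtain ⟨i, hi, j, hj, h⟩ := hk (Set.mem_univ x)
          have a1 : sqm P ((2 ^ i * 3 ^ j) • x) ≤
              ∑ j ∈ range (k + 1), sqm P ((2 ^ i * 3 ^ j) • x) :=
            Finset.single_le_sum (f := fun j => sqm P ((2 ^ i * 3 ^ j) • x))
              (fun j _ => sqm_nonneg P _) (by rw [mem_range]; omega)
          have a2 : ∑ j ∈ range (k + 1), sqm P ((2 ^ i * 3 ^ j) • x) ≤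
              ∑ i ∈ range (k + 1), ∑ j ∈ range (k + 1), sqm P ((2 ^ i * 3 ^ j) • x) :=
            Finset.single_le_sum (f := fun i => ∑ j ∈ range (k + 1), sqm P ((2 ^ i * 3 ^ j) • x))
              (fun i _ => sum_nonneg fun j _ => sqm_nonneg P _) (by rw [mem_range]; omega)
          simp only
          linarith
      _ = ∑ i ∈ range (k + 1), ∑ j ∈ range (k + 1), ∫ x, sqm P x ∂ν := by
          rw [integral_finsetSum _ fun i _ => integrable_finsetSum _ fun j _ => hint i j]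
          refine sum_congr rfl fun i _ => ?_
          rw [integral_finsetSum _ fun j _ => hint i j]
          exact sum_congr rfl fun j _ => hsame i j
  simp only [sum_const, card_range, nsmul_eq_mul] at hle
  rw [div_le_iff₀ (by positivity)]
  linarith

/-- **Extreme traces.** -/
theorem extreme_poly (s2 s3 t : Equiv.Perm ℚ) (hs2 : ∀ x : ℚ, s2 x = 2 * x)
    (hs3 : ∀ x : ℚ, s3 x = 3 * x)
    (ht : ∀ x : ℚ, t x = x + 1) (G : Subgroup (Equiv.Perm ℚ))
    (hG : G = Subgroup.closure {s2, s3, t}) (u : G)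
    (hu : ∀ x : ℚ, (u : Equiv.Perm ℚ) x = x + 1) (φ : G → ℂ)
    (hext : φ ∈ Set.extremePoints ℝ {ψ : G → ℂ | ψ 1 = 1 ∧ (∀ g h : G, ψ (h * g * h⁻¹) = ψ g) ∧
      ∀ (s : Finset G) (c : G → ℂ), 0 ≤ ∑ i ∈ s, ∑ j ∈ s, star (c j) * c i * ψ (j⁻¹ * i)}) :
    List.TFAE [
      FiniteDimensional ℂ (Submodule.span ℂ {F : G → ℂ | ∃ n : G,
        (∃ r : ℚ, ∀ x : ℚ, (n : Equiv.Perm ℚ) x = x + r) ∧ F = fun x => φ (n * x)}),
      ∃ P : Polynomial ℂ, P ≠ 0 ∧ qf φ P u = 0,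
      ∃ P : Polynomial ℂ, P ≠ 0 ∧ ∃ κ : ℝ, 0 < κ ∧ ∀ᶠ N : ℕ in atTop, ∃ n : ℕ, 1 ≤ n ∧
        n ≤ 2 ^ N ∧ (qf φ P (u ^ n)).re ≤ (N : ℝ) ^ (-κ)] := by
  have key := Pool.Agent.TH461.FGK.extreme s2 s3 t hs2 hs3 ht G hG u hu φ hext
  obtain ⟨h1, hcl, hpd⟩ := hext.1
  obtain ⟨τ, S6, μ, D⟩ := data_of hs2 hs3 ht hG h1 hcl hpd
  have := D.prob
  tfae_have 1 → 2 := by
    intro h
    obtain ⟨n, hn1, hn⟩ := (key.out 0 1).1 h
    obtain ⟨m, hm, hm'⟩ := qf_eq D hu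
    have := prob_zim μ m
    refine ⟨Polynomial.X ^ n - 1, ?_, ?_⟩
    · have := (Polynomial.monic_X_pow_sub_C (1 : ℂ) (by omega : n ≠ 0)).ne_zero
      rwa [Polynomial.C_1] at this
    · rw [hm]
      have hi : Integrable (fun x : UnitAddCircle => (fourier (n : ℤ) x : ℂ)) (zim μ m) :=
        (fourier (n : ℤ)).continuous.integrable_of_hasCompactSupport
          (HasCompactSupport.of_compactSpace _)
      have hre : ∫ x, (fourier (n : ℤ) x : ℂ).re ∂(zim μ m) = 1 := by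
        have e := integral_re hi
        simp only [RCLike.re_to_complex] at e
        rw [e, ← hm', hn, Complex.one_re]
      have e2 : ∫ x, sqm (Polynomial.X ^ n - 1) x ∂(zim μ m) = 0 := by
        simp only [sqm_X_pow]
        have hir : Integrable (fun x : UnitAddCircle => (fourier (n : ℤ) x : ℂ).re) (zim μ m) := hi.re
        rw [integral_const_mul, integral_sub (integrable_const _) hir, hre]
        simp
      rw [e2, Complex.ofReal_zero]
  tfae_have 2 → 3 := by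
    rintro ⟨P, hP, h⟩
    refine ⟨P, hP, 1, one_pos, Eventually.of_forall fun N => ⟨1, le_rfl, Nat.one_le_two_pow, ?_⟩⟩
    rw [pow_one, h, Complex.zero_re]
    exact Real.rpow_nonneg (Nat.cast_nonneg _) _
  tfae_have 3 → 1 := by
    rintro ⟨P, hP, κ, hκ, hN⟩
    apply (key.out 0 2).2
    obtain ⟨d, hd1, hd⟩ := exists_d hP
    obtain ⟨C, hC0, hC⟩ := growth hP hd1 hd one_pos
    have hC' := hC s2 s3 t hs2 hs3 ht G hG φ h1 hcl hpd
    -- shift
    have hlim : Tendsto (fun N : ℕ => N - d) atTop atTop := tendsto_sub_atTop_nat d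
    have habs : ∀ᶠ N : ℕ in atTop, C * ((N - d : ℕ) : ℝ) ^ (-κ) ≤ (N : ℝ) ^ (-(κ / 2)) := by
      have h5 : Tendsto (fun N : ℕ => (N : ℝ) ^ (κ / 2)) atTop atTop :=
        (tendsto_rpow_atTop (by positivity)).comp tendsto_natCast_atTop_atTop
      filter_upwards [h5.eventually_ge_atTop (C * 2 ^ κ), eventually_ge_atTop (2 * d + 1)]
        with N h6 h7
      have hN0 : (0 : ℝ) < N := by
        have : 0 < N := by omega
        exact_mod_cast this
      have h8 : (N : ℝ) / 2 ≤ ((N - d : ℕ) : ℝ) := by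
        rw [Nat.cast_sub (by omega)]
        have : (2 * d + 1 : ℝ) ≤ N := by exact_mod_cast h7
        linarith
      have h9 : ((N - d : ℕ) : ℝ) ^ (-κ) ≤ ((N : ℝ) / 2) ^ (-κ) :=
        Real.rpow_le_rpow_of_nonpos (by positivity) h8 (by linarith)
      calc C * ((N - d : ℕ) : ℝ) ^ (-κ) ≤ C * ((N : ℝ) / 2) ^ (-κ) :=
            mul_le_mul_of_nonneg_left h9 hC0.le
        _ = (C * 2 ^ κ) * (N : ℝ) ^ (-κ) := by
            rw [Real.div_rpow hN0.le (by norm_num), Real.rpow_neg (by norm_num : (0 : ℝ) ≤ 2)]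
            field_simp
        _ ≤ (N : ℝ) ^ (κ / 2) * (N : ℝ) ^ (-κ) :=
            mul_le_mul_of_nonneg_right h6 (Real.rpow_nonneg hN0.le _)
        _ = (N : ℝ) ^ (-(κ / 2)) := by
            rw [← Real.rpow_add hN0]; congr 1; ring
    refine ⟨κ / 2, by positivity, ?_⟩
    filter_upwards [hlim.eventually hN, habs, eventually_ge_atTop d] with N h5 h6 h7
    obtain ⟨n, hn1, hn2, hn3⟩ := h5
    refine ⟨n * d, Nat.one_le_iff_ne_zero.2 (by positivity), ?_, ?_⟩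
    · calc n * d ≤ 2 ^ (N - d) * 2 ^ d := Nat.mul_le_mul hn2 Nat.lt_two_pow_self.le
        _ = 2 ^ N := by rw [← pow_add]; congr 1; omega
    · have hun : ∀ x : ℚ, ((u ^ n : G) : Equiv.Perm ℚ) x = x + n := by
        intro x
        have : ∀ (n : ℕ) x, ((u ^ n : G) : Equiv.Perm ℚ) x = x + n := by
          intro n
          induction n with
          | zero => intro x; simp
          | succ n ih =>
            intro x
            rw [pow_succ, Subgroup.coe_mul, Equiv.Perm.mul_apply, hu, ih]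
            push_cast; ring
        exact this n x
      have h8 := hC' (u ^ n) ⟨n, hun⟩ 1 le_rfl
      rw [mul_one, ← pow_mul, Nat.cast_one, Real.log_one, add_zero, Real.one_rpow, mul_one] at h8
      exact h8.trans ((mul_le_mul_of_nonneg_left hn3 hC0.le).trans h6)
  tfae_finish

end Pool.Agent.Q166.TR
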