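import Pool.Agent.Q298.FC.JR23
import Pool.Agent.Y253.TR.ValMain
import Pool.Agent.Q166.TR.Poly2
import Pool.Agent.Y139.GR.Inv

/-!
# Joint ranges of two values of the tracial states of `C*(ℤ² ⋉ ℤ[1/6])`

The lemma `lift` is a variant of a lemma of `Y253.TR.Val`.
-/

set_option autoImplicit false

open MeasureTheory Filter Topology Finset
open scoped ComplexOrder ComplexConjugate ENNReal

namespace Pool.Agent.Q166.TR

open Pool.Agent.W763.Tr Pool.Agent.TH654.FC Pool.Agent.Y253.TR Pool.Agent.Y315.FC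
open Pool.Agent.Q298.FC (Inv JR uni inv5 inv7 inv25 inv35 mix_inv mix_co)

/-- the measure is carried by a finite group of rational points -/
def Ker (μ : Measure UnitAddCircle) : Prop :=
  ∃ M : ℕ, 1 ≤ M ∧ ∀ k : ℤ, ∫ x, (fourier (M * k) x : ℂ) ∂μ = 1

/-- joint ranges for the measures carried by finite groups -/
def KR (m n : ℕ) : Set (ℝ × ℝ) :=
  {v | ∃ μ : Measure UnitAddCircle, Inv 2 3 μ ∧ Ker μ ∧ v = ((co μ m).re, (co μ n).re)}

lemma mix_fourier {μ ν : Measure UnitAddCircle} [IsFiniteMeasure μ] [IsFiniteMeasure ν] {a b : ℝ}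
    (ha : 0 ≤ a) (hb : 0 ≤ b) (n : ℤ) :
    ∫ x, (fourier n x : ℂ) ∂(ENNReal.ofReal a • μ + ENNReal.ofReal b • ν) =
      a * ∫ x, (fourier n x : ℂ) ∂μ + b * ∫ x, (fourier n x : ℂ) ∂ν := by
  rw [integral_add_measure, integral_smul_measure, integral_smul_measure,
    ENNReal.toReal_ofReal ha, ENNReal.toReal_ofReal hb, Complex.real_smul, Complex.real_smul]
  · exact (int_c (map_continuous _)).smul_measure ENNReal.ofReal_ne_top
  · exact (int_c (map_continuous _)).smul_measure ENNReal.ofReal_ne_top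

theorem KR_mix {m n : ℕ} {x y x' y' : ℝ} (h : (x, y) ∈ KR m n) (h' : (x', y') ∈ KR m n) {t : ℝ}
    (h0 : 0 ≤ t) (h1 : t ≤ 1) {u v : ℝ}
    (hu : u = (1 - t) * x + t * x') (hv : v = (1 - t) * y + t * y') : (u, v) ∈ KR m n := by
  obtain ⟨μ, hμ, ⟨M, hM1, hM⟩, e⟩ := h
  obtain ⟨ν, hν, ⟨N, hN1, hN⟩, e'⟩ := h'
  have := hμ.prob
  have := hν.prob
  have ht : 0 ≤ 1 - t := by linarith
  refine ⟨_, mix_inv hμ hν ht h0 (by ring), ⟨M * N, Nat.one_le_iff_ne_zero.2 (by positivity),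
    fun k => ?_⟩, ?_⟩
  · rw [mix_fourier ht h0]
    have e1 : (((M * N : ℕ) : ℤ) * k) = M * (N * k) := by push_cast; ring
    have e2 : (((M * N : ℕ) : ℤ) * k) = N * (M * k) := by push_cast; ring
    have f1 : ∫ x, (fourier (((M * N : ℕ) : ℤ) * k) x : ℂ) ∂μ = 1 := by rw [e1, hM]
    have f2 : ∫ x, (fourier (((M * N : ℕ) : ℤ) * k) x : ℂ) ∂ν = 1 := by rw [e2, hN]
    rw [f1, f2]
    push_cast
    ring
  · rw [mix_co ht h0, mix_co ht h0]
    have a1 : x = (co μ m).re := congrArg Prod.fst e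
    have a2 : y = (co μ n).re := congrArg Prod.snd e
    have a3 : x' = (co ν m).re := congrArg Prod.fst e'
    have a4 : y' = (co ν n).re := congrArg Prod.snd e'
    rw [hu, hv, a1, a2, a3, a4]
    simp

lemma ker_uni (N : ℕ) [NeZero N] (hS : (uni N).Nonempty) : Ker (orb (uni N)) :=
  ⟨N, Nat.one_le_iff_ne_zero.2 (NeZero.ne N), fun k => orb_kernel hS k⟩

open Pool.Agent.Q298.FC in
theorem k17_5 : ((-(1 / 4) : ℝ), (-(1 / 4) : ℝ)) ∈ KR 1 7 :=
  ⟨_, inv5, ker_uni 5 ⟨1, by decide⟩, by rw [c5_1, c5_7]⟩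
open Pool.Agent.Q298.FC in
theorem k17_35 : ((1 / 24 : ℝ), (-(1 / 4) : ℝ)) ∈ KR 1 7 :=
  ⟨_, inv35, ker_uni 35 ⟨1, by decide⟩, by rw [c35_1, c35_7]⟩
open Pool.Agent.Q298.FC in
theorem k17_7 : ((-(1 / 6) : ℝ), (1 : ℝ)) ∈ KR 1 7 :=
  ⟨_, inv7, ker_uni 7 ⟨1, by decide⟩, by rw [c7_1, c7_7]⟩
open Pool.Agent.Q298.FC in
theorem k57_25 : ((-(1 / 4) : ℝ), (0 : ℝ)) ∈ KR 5 7 :=
  ⟨_, inv25, ker_uni 25 ⟨1, by decide⟩, by rw [c25_5, c25_7]⟩
open Pool.Agent.Q298.FC in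
theorem k57_35 : ((-(1 / 6) : ℝ), (-(1 / 4) : ℝ)) ∈ KR 5 7 :=
  ⟨_, inv35, ker_uni 35 ⟨1, by decide⟩, by rw [c35_5, c35_7]⟩
open Pool.Agent.Q298.FC in
theorem k57_5 : ((1 : ℝ), (-(1 / 4) : ℝ)) ∈ KR 5 7 :=
  ⟨_, inv5, ker_uni 5 ⟨1, by decide⟩, by rw [c5_5, c5_7]⟩
open Pool.Agent.Q298.FC in
theorem k57_7 : ((-(1 / 6) : ℝ), (1 : ℝ)) ∈ KR 5 7 :=
  ⟨_, inv7, ker_uni 7 ⟨1, by decide⟩, by rw [c7_5, c7_7]⟩

theorem k_one (m n : ℕ) : ((1 : ℝ), (1 : ℝ)) ∈ KR m n := by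
  have h : ∀ k : ℤ, ∫ x, (fourier k x : ℂ) ∂(Measure.dirac (0 : UnitAddCircle)) = 1 := by
    intro k
    rw [integral_dirac]
    simp [fourier_apply]
  refine ⟨Measure.dirac 0, ⟨inferInstance, ?_, ?_⟩, ⟨1, le_rfl, fun k => h _⟩, ?_⟩
  · have hm : Measurable (fun x : UnitAddCircle => 2 • x) := (continuous_nsmul 2).measurable
    exact ⟨hm, by rw [Measure.map_dirac' hm]; simp⟩
  · have hm : Measurable (fun x : UnitAddCircle => 3 • x) := (continuous_nsmul 3).measurable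
    exact ⟨hm, by rw [Measure.map_dirac' hm]; simp⟩
  · unfold co
    rw [h, h]
    simp

theorem kr17 {x y : ℝ} (h1 : -(1 / 4) ≤ y) (h2 : y ≤ 1) (h3 : 30 * x - 23 * y ≤ 7)
    (h4 : y - 15 * x ≤ 7 / 2) : (x, y) ∈ KR 1 7 := by
  set t : ℝ := (y + 1 / 4) * (4 / 5) with ht
  have ht0 : 0 ≤ t := by rw [ht]; linarith
  have ht1 : t ≤ 1 := by rw [ht]; linarith
  have hy : y = (1 - t) * (-(1 / 4)) + t * 1 := by rw [ht]; ring
  have hl : ((1 - t) * (-(1 / 4)) + t * (-(1 / 6)), y) ∈ KR 1 7 :=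
    KR_mix k17_5 k17_7 ht0 ht1 rfl hy
  have hr : ((1 - t) * (1 / 24) + t * 1, y) ∈ KR 1 7 :=
    KR_mix k17_35 (k_one 1 7) ht0 ht1 rfl hy
  set w : ℝ := 7 / 24 + t * (21 / 24) with hw
  have hw0 : 0 < w := by rw [hw]; linarith
  refine KR_mix hl hr (t := (x - ((1 - t) * (-(1 / 4)) + t * (-(1 / 6)))) / w)
    (div_nonneg (by rw [ht]; linarith) hw0.le)
    ((div_le_one hw0).mpr (by rw [hw, ht]; linarith)) ?_ (by ring)
  have e : (x - ((1 - t) * (-(1 / 4)) + t * (-(1 / 6)))) / w * w =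
      x - ((1 - t) * (-(1 / 4)) + t * (-(1 / 6))) := div_mul_cancel₀ _ hw0.ne'
  rw [hw] at e ⊢
  linear_combination -e

theorem kr57 {x y : ℝ} (h0 : x ≤ 1) (h1 : -(1 / 4) ≤ y) (h2 : y ≤ 1) (h3 : -(3 / 4) ≤ 3 * x + y)
    (h4 : -3 ≤ 12 * x - y) : (x, y) ∈ KR 5 7 := by
  have hone := k_one 5 7
  have hr : ((1 : ℝ), y) ∈ KR 5 7 :=
    KR_mix k57_5 hone (t := (y + 1 / 4) * (4 / 5)) (by linarith) (by linarith) (by ring)
      (by ring)
  rcases le_total 0 y with hy | hy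
  · have hl : ((1 - y) * (-(1 / 4)) + y * (-(1 / 6)), y) ∈ KR 5 7 :=
      KR_mix k57_25 k57_7 hy h2 rfl (by ring)
    set w : ℝ := 5 / 4 - y / 12 with hw
    have hw0 : 0 < w := by rw [hw]; linarith
    refine KR_mix hl hr (t := (x - ((1 - y) * (-(1 / 4)) + y * (-(1 / 6)))) / w)
      (div_nonneg (by linarith) hw0.le)
      ((div_le_one hw0).mpr (by rw [hw]; linarith)) ?_ (by ring)
    have e : (x - ((1 - y) * (-(1 / 4)) + y * (-(1 / 6)))) / w * w =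
        x - ((1 - y) * (-(1 / 4)) + y * (-(1 / 6))) := div_mul_cancel₀ _ hw0.ne'
    rw [hw] at e ⊢
    linear_combination -e
  · have hl : ((1 - (1 + 4 * y)) * (-(1 / 6)) + (1 + 4 * y) * (-(1 / 4)), y) ∈ KR 5 7 :=
      KR_mix k57_35 k57_25 (by linarith) (by linarith) rfl (by ring)
    set w : ℝ := 5 / 4 + y / 3 with hw
    have hw0 : 0 < w := by rw [hw]; linarith
    refine KR_mix hl hr
      (t := (x - ((1 - (1 + 4 * y)) * (-(1 / 6)) + (1 + 4 * y) * (-(1 / 4)))) / w)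
      (div_nonneg (by linarith) hw0.le)
      ((div_le_one hw0).mpr (by rw [hw]; linarith)) ?_ (by ring)
    have e : (x - ((1 - (1 + 4 * y)) * (-(1 / 6)) + (1 + 4 * y) * (-(1 / 4)))) / w * w =
        x - ((1 - (1 + 4 * y)) * (-(1 / 6)) + (1 + 4 * y) * (-(1 / 4))) :=
      div_mul_cancel₀ _ hw0.ne'
    rw [hw] at e ⊢
    linear_combination -e

/-- lifting along `x ↦ n x`, `n` prime to `6` -/
lemma lift {n : ℕ} (h2n : ¬ 2 ∣ n) (h3n : ¬ 3 ∣ n) (hn0 : n ≠ 0) {μ : Measure UnitAddCircle}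
    (hI : Inv 2 3 μ) (hK : Ker μ) : ∃ ν : Measure UnitAddCircle, Inv 2 3 ν ∧ Ker ν ∧
      ∀ m : ℤ, ∫ x, (fourier (n * m) x : ℂ) ∂ν = ∫ x, (fourier m x : ℂ) ∂μ := by
  classical
  have := hI.prob
  have h2 := hI.hp
  have h3 := hI.hq
  obtain ⟨M, hM1, hM⟩ := hK
  have hn' : (n : ℤ) ≠ 0 := by exact_mod_cast hn0
  set f : ℤ → ℂ := fun m => if (n : ℤ) ∣ m then ∫ x, (fourier (m / n) x : ℂ) ∂μ else 0 with hf
  have hfm : ∀ m : ℤ, f (n * m) = ∫ x, (fourier m x : ℂ) ∂μ := by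
    intro m
    simp only [hf]
    rw [if_pos (dvd_mul_right _ _), Int.mul_ediv_cancel_left _ hn']
  have hf0 : f 0 = 1 := by
    have := hfm 0
    rw [mul_zero] at this
    rw [this]; simp
  -- positive definiteness
  have hpd : ∀ (N : ℕ) (a : ℕ → ℂ), 0 ≤ ∑ j ∈ range N, ∑ k ∈ range N,
      star (a k) * a j * f ((j : ℤ) - k) := by
    intro N a
    have hgroup : ∑ j ∈ range N, ∑ k ∈ range N, star (a k) * a j * f ((j : ℤ) - k) =
        ∑ l ∈ (range N).image (· % n), ∑ j ∈ range N with j % n = l, ∑ k ∈ range N with k % n = l,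
          star (a k) * a j * f ((j : ℤ) - k) := by
      rw [← Finset.sum_fiberwise_of_maps_to (s := range N) (t := (range N).image (· % n))
        (g := (· % n)) (fun i hi => mem_image_of_mem (· % n) hi)]
      refine sum_congr rfl fun l _ => sum_congr rfl fun j hj => ?_
      rw [sum_filter]
      refine sum_congr rfl fun k _ => ?_
      split_ifs with hk
      · rfl
      · have : f ((j : ℤ) - k) = 0 := by
          simp only [hf]
          rw [if_neg]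
          intro hd
          apply hk
          have e1 : (j : ℤ) % n = (k : ℤ) % n := (Int.modEq_iff_dvd.2 hd).symm
          have e2 : j % n = k % n := by exact_mod_cast e1
          rw [← e2]; exact (mem_filter.1 hj).2
        rw [this, mul_zero]
    rw [hgroup]
    refine sum_nonneg fun l _ => ?_
    refine le_of_le_of_eq (pd_fourier μ ((range N).filter fun j => j % n = l) a
      (fun j => ((j / n : ℕ) : ℤ))) ?_
    refine sum_congr rfl fun j hj => sum_congr rfl fun k hk => ?_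
    congr 1
    have e : (j : ℤ) - k = n * (((j / n : ℕ) : ℤ) - ((k / n : ℕ) : ℤ)) := by
      have h5 := Nat.div_add_mod j n
      have h6 := Nat.div_add_mod k n
      rw [(mem_filter.1 hj).2] at h5
      rw [(mem_filter.1 hk).2] at h6
      have h5' : (n : ℤ) * ((j / n : ℕ) : ℤ) + l = j := by exact_mod_cast h5
      have h6' : (n : ℤ) * ((k / n : ℕ) : ℤ) + l = k := by exact_mod_cast h6
      linarith
    rw [e, hfm]
  obtain ⟨ν, hν, hνf⟩ := herglotz (c := f) hf0 hpd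
  have hmul : ∀ p : ℕ, p.Prime → ¬ p ∣ n → MeasurePreserving (fun x : UnitAddCircle => p • x) μ μ →
      ∀ m : ℤ, f (m * p) = f m := by
    intro p hp hpn hpm m
    by_cases hd : (n : ℤ) ∣ m
    · obtain ⟨q, rfl⟩ := hd
      rw [mul_assoc, hfm, hfm, fc_mul hpm]
    · simp only [hf]
      rw [if_neg hd, if_neg]
      intro hd'
      apply hd
      have hcop : IsCoprime (n : ℤ) (p : ℤ) := by
        rw [Nat.isCoprime_iff_coprime]
        exact ((Nat.Prime.coprime_iff_not_dvd hp).2 hpn).symm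
      exact hcop.dvd_of_dvd_mul_right hd'
  refine ⟨ν, ⟨hν, mp_nsmul hνf (fun m => ?_), mp_nsmul hνf (fun m => ?_)⟩,
    ⟨n * M, ?_, fun m => ?_⟩, fun m => ?_⟩
  · exact hmul 2 Nat.prime_two h2n h2 m
  · exact hmul 3 Nat.prime_three h3n h3 m
  · exact Nat.one_le_iff_ne_zero.2 (mul_ne_zero hn0 (by omega))
  · rw [hνf]
    have : ((n * M : ℕ) : ℤ) * m = n * (M * m) := by push_cast; ring
    rw [this, hfm, hM]
  · rw [hνf, hfm]

lemma lift_nat {n : ℕ} (hn0 : n ≠ 0) {μ : Measure UnitAddCircle} (hI : Inv 2 3 μ) (hK : Ker μ) :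
    ∃ ν : Measure UnitAddCircle, Inv 2 3 ν ∧ Ker ν ∧
      ∀ m : ℤ, ∫ x, (fourier (n * m) x : ℂ) ∂ν = ∫ x, (fourier m x : ℂ) ∂μ := by
  obtain ⟨a, n1, h1, e1⟩ := Nat.exists_eq_pow_mul_and_not_dvd hn0 2 (by norm_num)
  have hn1 : n1 ≠ 0 := by rintro rfl; simp at h1
  obtain ⟨b, n2, h2, e2⟩ := Nat.exists_eq_pow_mul_and_not_dvd hn1 3 (by norm_num)
  have hn2 : n2 ≠ 0 := by rintro rfl; simp at h2
  have h12 : ¬ 2 ∣ n2 := fun h => h1 (e2 ▸ h.mul_left _)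
  obtain ⟨ν, hν, hKν, hc⟩ := lift h12 h2 hn2 hI hK
  refine ⟨ν, hν, hKν, fun m => ?_⟩
  have := hν.prob
  rw [← hc, ← fc_pow hν.hp hν.hq a b ((n2 : ℤ) * m)]
  congr 1; ext x; congr 2
  rw [e1, e2]; push_cast; ring

/-- lifting for integers, real parts -/
lemma lift_re {n : ℤ} (hn0 : n ≠ 0) {μ : Measure UnitAddCircle} (hI : Inv 2 3 μ) (hK : Ker μ) :
    ∃ ν : Measure UnitAddCircle, Inv 2 3 ν ∧ Ker ν ∧
      ∀ m : ℤ, (∫ x, (fourier (n * m) x : ℂ) ∂ν).re = (∫ x, (fourier m x : ℂ) ∂μ).re := by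
  obtain ⟨ν, hν, hKν, hc⟩ := lift_nat (n := n.natAbs) (by omega) hI hK
  refine ⟨ν, hν, hKν, fun m => ?_⟩
  rcases Int.natAbs_eq n with hn | hn
  · rw [hn, hc]
  · rw [hn, neg_mul, fc_conj, hc, Complex.conj_re]

/-- a trace from a measure -/
lemma trace_of {s2 s3 t : Equiv.Perm ℚ} (hs2 : ∀ x, s2 x = 2 * x)
    (hs3 : ∀ x, s3 x = 3 * x) (ht : ∀ x, t x = x + 1) {G : Subgroup (Equiv.Perm ℚ)}
    (hG : G = Subgroup.closure {s2, s3, t}) {g : G} (hg1 : g ≠ 1)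
    (hg : ∃ r : ℚ, ∀ x : ℚ, (g : Equiv.Perm ℚ) x = x + r) {μ : Measure UnitAddCircle}
    (hI : Inv 2 3 μ) (hK : Ker μ) :
    ∃ φ : G → ℂ, (φ 1 = 1 ∧ (∀ g h : G, φ (h * g * h⁻¹) = φ g) ∧ PD φ) ∧
      FiniteDimensional ℂ (Submodule.span ℂ {F : G → ℂ | ∃ n : G,
        (∃ r : ℚ, ∀ x : ℚ, (n : Equiv.Perm ℚ) x = x + r) ∧ F = fun x => φ (n * x)}) ∧
      ∀ a : ℕ, (φ (g ^ a)).re = (co μ a).re := by
  obtain ⟨r, hr⟩ := hg
  have hform : ∀ g : G, ∃ (a b : ℤ) (r : ℚ), Six r ∧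
      ∀ x, (g : Equiv.Perm ℚ) x = 2 ^ a * 3 ^ b * x + r := fun g =>
    form hs2 hs3 ht g (by rw [← hG]; exact g.2)
  obtain ⟨n, k, hnk⟩ : Six r := by
    obtain ⟨a, b, r', hr', h⟩ := hform g
    have e0 := h 0
    rw [hr, mul_zero, zero_add, zero_add] at e0
    rw [e0]; exact hr'
  have hgn : ∀ (a : ℕ) x, ((g ^ a : G) : Equiv.Perm ℚ) x = x + ((n * a : ℤ) : ℚ) / 6 ^ k := by
    intro a
    induction a with
    | zero => intro x; simp
    | succ a ih =>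
      intro x
      rw [pow_succ, Subgroup.coe_mul, Equiv.Perm.mul_apply, hr, ih, hnk]
      push_cast; ring
  have hn : n ≠ 0 := by
    rintro rfl
    apply hg1
    apply Subtype.ext
    apply Equiv.ext
    intro x
    rw [hr, hnk]; simp
  obtain ⟨ν, hν, ⟨M, hM1, hM⟩, hc⟩ := lift_re hn hI hK
  have := hν.prob
  obtain ⟨φ, h1, hcl, hpd, hv, -⟩ := trace_of_measure hs2 hs3 ht hG ν hν.hp hν.hq
  refine ⟨φ, ⟨h1, hcl, hpd⟩, ?_, fun a => ?_⟩
  · obtain ⟨τ, S6, ν', D⟩ := data_of hs2 hs3 ht hG h1 hcl hpd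
    refine finite_dim D.hτ D.h1 D.hcl D.hpd S6 D.hS6 D.hform D.h2 D.h3 ⟨M, hM1, fun n => ?_⟩
    rw [hv (τ (M * n)) (M * n) 0 fun x => by rw [D.hτ]; simp]
    exact hM n
  · rw [hv (g ^ a) (n * a) k (hgn a), hc]
    rfl

/-- the measure of a trace along a translation -/
lemma measure_of {s2 s3 t : Equiv.Perm ℚ} (hs2 : ∀ x, s2 x = 2 * x)
    (hs3 : ∀ x, s3 x = 3 * x) (ht : ∀ x, t x = x + 1) {G : Subgroup (Equiv.Perm ℚ)}
    (hG : G = Subgroup.closure {s2, s3, t}) {g : G} (hg1 : g ≠ 1)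
    (hg : ∃ r : ℚ, ∀ x : ℚ, (g : Equiv.Perm ℚ) x = x + r) {φ : G → ℂ}
    (h1 : φ 1 = 1) (hcl : ∀ g h : G, φ (h * g * h⁻¹) = φ g) (hpd : PD φ) :
    ∃ μ : Measure UnitAddCircle, Inv 2 3 μ ∧ (∀ a : ℕ, φ (g ^ a) = co μ a) ∧
      (φ ∈ Set.extremePoints ℝ {ψ : G → ℂ | ψ 1 = 1 ∧ (∀ g h : G, ψ (h * g * h⁻¹) = ψ g) ∧
        ∀ (s : Finset G) (c : G → ℂ), 0 ≤ ∑ i ∈ s, ∑ j ∈ s, star (c j) * c i * ψ (j⁻¹ * i)} →
        FiniteDimensional ℂ (Submodule.span ℂ {F : G → ℂ | ∃ n : G,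
          (∃ r : ℚ, ∀ x : ℚ, (n : Equiv.Perm ℚ) x = x + r) ∧ F = fun x => φ (n * x)}) ∨
        ∀ x, μ {x} = 0) := by
  obtain ⟨τ, S6, μ, D⟩ := data_of hs2 hs3 ht hG h1 hcl hpd
  have := D.prob
  obtain ⟨r, hr⟩ := hg
  obtain ⟨m, hm0, -, hm⟩ := val D hr
  have hr0 : r ≠ 0 := by
    rintro rfl
    apply hg1
    apply Subtype.ext
    apply Equiv.ext
    intro x
    rw [hr]; simp
  refine ⟨zim μ m, ⟨prob_zim μ m, mp_zim D.mp2 m, mp_zim D.mp3 m⟩, hm, fun hext => ?_⟩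
  rcases Pool.Agent.TH463.UQ.finite_or_atomless D hext with h | h
  · exact Or.inl h
  · refine Or.inr fun x => ?_
    unfold zim
    have hmeas : Measurable (fun x : UnitAddCircle => m • x) := by fun_prop
    rw [Measure.map_apply hmeas (measurableSet_singleton x)]
    have hnull : NullSingletonClass μ := ⟨h⟩
    have hfin : ((fun x : UnitAddCircle => m • x) ⁻¹' {x}).Finite := by
      have hm1 : 1 ≤ m.natAbs := Int.natAbs_pos.2 (hm0 hr0)
      rcases Int.natAbs_eq m with e | e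
      · refine (Pool.Agent.Y139.GR.finite_fiber hm1 x).subset fun y hy => ?_
        have hy' : m • y = x := hy
        rw [e, natCast_zsmul] at hy'
        exact hy'
      · refine (Pool.Agent.Y139.GR.finite_fiber hm1 (-x)).subset fun y hy => ?_
        have hy' : m • y = x := hy
        rw [e, neg_smul, natCast_zsmul] at hy'
        change m.natAbs • y = -x
        rw [← hy', neg_neg]
    exact hfin.measure_zero μ

end Pool.Agent.Q166.TR
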