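import Mathlib
import Pool.Agent.TH461.FGK.Tr
import Pool.Agent.TH654.FC.Open
import Pool.Agent.Y253.TR.Dict

/-!
# Traces of `C*(ℤ² ⋉ ℤ[1/6])` which are small on one polynomial in a translation
-/

set_option autoImplicit false

open MeasureTheory Filter Topology Finset
open scoped ComplexOrder ComplexConjugate

namespace Pool.Agent.Q166.TR

open Pool.Agent.W763.Tr Pool.Agent.TH654.FC Pool.Agent.Y253.TR

/-- `|P(e(x))|²` -/
noncomputable def sqm (P : Polynomial ℂ) (x : UnitAddCircle) : ℝ := ‖P.eval (fourier 1 x : ℂ)‖ ^ 2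

lemma continuous_sqm (P : Polynomial ℂ) : Continuous (sqm P) := by
  unfold sqm
  exact ((P.continuous.comp (fourier 1).continuous).norm).pow 2

lemma sqm_nonneg (P : Polynomial ℂ) (x : UnitAddCircle) : 0 ≤ sqm P x := by
  unfold sqm; positivity

lemma sqm_eq_zero {P : Polynomial ℂ} {x : UnitAddCircle} :
    sqm P x = 0 ↔ P.eval (fourier 1 x : ℂ) = 0 := by
  unfold sqm
  rw [pow_eq_zero_iff two_ne_zero, norm_eq_zero]

lemma exists_pos {P : Polynomial ℂ} (hP : P ≠ 0) : ∃ x : UnitAddCircle, 0 < sqm P x := by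
  by_contra hcon
  push Not at hcon
  have h0 : ∀ x, P.eval (fourier 1 x : ℂ) = 0 := fun x =>
    sqm_eq_zero.1 (le_antisymm (hcon x) (sqm_nonneg P x))
  have hinj : Function.Injective (fun x : UnitAddCircle => (fourier 1 x : ℂ)) := by
    intro x y hxy
    simp only [fourier_one] at hxy
    exact AddCircle.injective_toCircle one_ne_zero (Subtype.ext hxy)
  have hI : Infinite (Set.Ico (0 : ℝ) (0 + 1)) := (Set.Ico_infinite (by norm_num)).to_subtype
  have hI2 : Infinite UnitAddCircle := by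
    have : Fact ((0 : ℝ) < 1) := ⟨one_pos⟩
    exact Infinite.of_injective (AddCircle.equivIco (1 : ℝ) 0).symm (Equiv.injective _)
  have hinf : (Set.range fun x : UnitAddCircle => (fourier 1 x : ℂ)).Infinite :=
    Set.infinite_range_of_injective hinj
  apply hinf
  refine (P.roots.toFinset.finite_toSet).subset ?_
  rintro _ ⟨x, rfl⟩
  simp only [Finset.mem_coe, Multiset.mem_toFinset]
  exact (Polynomial.mem_roots hP).2 (h0 x)

/-- the level -/
lemma exists_level {P : Polynomial ℂ} (hP : P ≠ 0) {d : ℕ}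
    (hd : ∀ x : UnitAddCircle, (∀ i j : ℕ, sqm P ((2 ^ i * 3 ^ j) • x) = 0) → d • x = 0) :
    ∃ c : ℝ, 0 < c ∧ ∀ x : UnitAddCircle,
      (∀ i j : ℕ, (2 ^ i * 3 ^ j) • x ∉ {y | c < sqm P y}) → d • x = 0 := by
  classical
  obtain ⟨x0, hx0⟩ := exists_pos hP
  set c0 : ℝ := sqm P x0 / 2 with hc0
  have hc0pos : 0 < c0 := by positivity
  have hUo : ∀ c : ℝ, IsOpen {y | c < sqm P y} := fun c =>
    isOpen_lt continuous_const (continuous_sqm P)
  have hne : {y | c0 < sqm P y}.Nonempty := ⟨x0, by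
    change c0 < sqm P x0
    rw [hc0]; linarith⟩
  have hfin := Pool.Agent.H847R3.XpXq.KU_finite (p := 2) (q := 3) le_rfl (by norm_num) irr23
    (hUo c0) hne
  have hch : ∀ x : UnitAddCircle, ∃ v : ℝ, 0 < v ∧ (d • x ≠ 0 → ∃ i j : ℕ,
      v ≤ sqm P ((2 ^ i * 3 ^ j) • x)) := by
    intro x
    by_cases hx : d • x = 0
    · exact ⟨1, one_pos, fun h => absurd hx h⟩
    · have : ¬ ∀ i j : ℕ, sqm P ((2 ^ i * 3 ^ j) • x) = 0 := fun h => hx (hd x h)
      push Not at this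
      obtain ⟨i, j, hij⟩ := this
      exact ⟨_, lt_of_le_of_ne (sqm_nonneg P _) (Ne.symm hij), fun _ => ⟨i, j, le_rfl⟩⟩
  choose v hv hv' using hch
  obtain ⟨m, hm0, hm⟩ : ∃ m : ℝ, 0 < m ∧ ∀ x ∈ hfin.toFinset, m ≤ v x := by
    rcases hfin.toFinset.eq_empty_or_nonempty with hE | hE
    · exact ⟨1, one_pos, fun x hx => by rw [hE] at hx; simp at hx⟩
    · obtain ⟨z, hz, hmin⟩ := hfin.toFinset.exists_min_image v hE
      exact ⟨v z, hv z, hmin⟩
  refine ⟨min c0 (m / 2), lt_min hc0pos (by positivity), fun x hx => ?_⟩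
  by_contra hdx
  have hxK : x ∈ Pool.Agent.H847R3.XpXq.KU 2 3 {y | c0 < sqm P y} := by
    intro i j hij
    refine hx i j ?_
    have hij' : c0 < sqm P ((2 ^ i * 3 ^ j) • x) := hij
    exact lt_of_le_of_lt (min_le_left _ _) hij'
  have h1 := hm x (hfin.mem_toFinset.2 hxK)
  obtain ⟨i, j, hij⟩ := hv' x hdx
  refine hx i j ?_
  change min c0 (m / 2) < _
  have := min_le_right c0 (m / 2)
  linarith

lemma markov (P : Polynomial ℂ) {c : ℝ} (hc : 0 < c) (μ : Measure UnitAddCircle)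
    [IsProbabilityMeasure μ] : μ.real {y | c < sqm P y} ≤ c⁻¹ * ∫ x, sqm P x ∂μ := by
  have hint : Integrable (sqm P) μ :=
    (continuous_sqm P).integrable_of_hasCompactSupport (HasCompactSupport.of_compactSpace _)
  have h1 := mul_meas_ge_le_integral_of_nonneg (μ := μ) (f := sqm P)
    (Eventually.of_forall (sqm_nonneg P)) hint c
  have h2 : μ.real {y | c < sqm P y} ≤ μ.real {y | c ≤ sqm P y} :=
    measureReal_mono (fun y (hy : c < sqm P y) => le_of_lt hy)
  rw [inv_mul_eq_div, le_div_iff₀ hc, mul_comm]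
  exact (mul_le_mul_of_nonneg_left h2 hc.le).trans h1

/-- the integral of `|P|²` -/
lemma integral_sqm (P : Polynomial ℂ) (μ : Measure UnitAddCircle) [IsProbabilityMeasure μ] :
    ((∫ x, sqm P x ∂μ : ℝ) : ℂ) = ∑ i ∈ P.support, ∑ j ∈ P.support,
      star (P.coeff j) * P.coeff i * ∫ x, (fourier ((i : ℤ) - j) x : ℂ) ∂μ := by
  have hi : ∀ m : ℤ, Integrable (fun x : UnitAddCircle => (fourier m x : ℂ)) μ := fun m =>
    (by fun_prop : Continuous (fun x : UnitAddCircle =>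
      (fourier m x : ℂ))).integrable_of_hasCompactSupport (HasCompactSupport.of_compactSpace _)
  have hev : ∀ x : UnitAddCircle, P.eval (fourier 1 x : ℂ) =
      ∑ i ∈ P.support, P.coeff i * fourier (i : ℤ) x := by
    intro x
    rw [Polynomial.eval_eq_sum, Polynomial.sum]
    exact sum_congr rfl fun i _ => by rw [fourier_coe_pow]
  have hsq : ∀ x, ((sqm P x : ℝ) : ℂ) =
      ∑ i ∈ P.support, ∑ j ∈ P.support,
        star (P.coeff j) * P.coeff i * fourier ((i : ℤ) - j) x := by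
    intro x
    have e1 : ((sqm P x : ℝ) : ℂ) = P.eval (fourier 1 x : ℂ) *
        starRingEnd ℂ (P.eval (fourier 1 x : ℂ)) := by
      unfold sqm
      rw [Complex.mul_conj, Complex.normSq_eq_norm_sq]
    rw [e1, hev, map_sum, Finset.sum_mul]
    refine Finset.sum_congr rfl fun i _ => ?_
    rw [Finset.mul_sum]
    refine Finset.sum_congr rfl fun j _ => ?_
    rw [map_mul, ← fourier_neg]
    have e2 : (fourier ((i : ℤ) - j) x : ℂ) = fourier (i : ℤ) x * fourier (-(j : ℤ)) x := by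
      rw [← fourier_add]; congr 1
    rw [e2, Complex.star_def]; ring
  rw [← integral_complex_ofReal]
  simp only [hsq]
  rw [integral_finsetSum]
  · refine Finset.sum_congr rfl fun i _ => ?_
    rw [integral_finsetSum]
    · refine Finset.sum_congr rfl fun j _ => ?_
      rw [integral_const_mul]
    · intro j _
      exact (hi _).const_mul _
  · intro i _
    exact integrable_finsetSum _ fun j _ => (hi _).const_mul _

/-- the image of a measure under `x ↦ m x`, `m` an integer -/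
noncomputable def zim (μ : Measure UnitAddCircle) (m : ℤ) : Measure UnitAddCircle :=
  μ.map (fun x : UnitAddCircle => m • x)

lemma prob_zim (μ : Measure UnitAddCircle) [IsProbabilityMeasure μ] (m : ℤ) :
    IsProbabilityMeasure (zim μ m) :=
  Measure.isProbabilityMeasure_map (by fun_prop)

lemma fc_zim (μ : Measure UnitAddCircle) (m n : ℤ) :
    ∫ x, (fourier n x : ℂ) ∂(zim μ m) = ∫ x, (fourier (m * n) x : ℂ) ∂μ := by
  unfold zim
  rw [integral_map (by fun_prop) (fourier n).continuous.aestronglyMeasurable]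
  refine integral_congr_ae (Eventually.of_forall fun x => ?_)
  simp only [fourier_apply]
  rw [smul_smul, mul_comm]

lemma mp_zim {μ : Measure UnitAddCircle} [IsProbabilityMeasure μ] {p : ℕ}
    (h : MeasurePreserving (fun x : UnitAddCircle => p • x) μ μ) (m : ℤ) :
    MeasurePreserving (fun x : UnitAddCircle => p • x) (zim μ m) (zim μ m) := by
  have := prob_zim μ m
  refine mp_nsmul (c := fun n => ∫ x, (fourier (m * n) x : ℂ) ∂μ) (fun n => fc_zim μ m n)
    fun n => ?_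
  rw [← mul_assoc, fc_mul h]

section

variable {G : Subgroup (Equiv.Perm ℚ)} {τ : ℤ → G} {φ : G → ℂ} {S6 : G} {μ : Measure UnitAddCircle}

/-- the values on the group generated by a translation -/
lemma val (D : Data G τ φ S6 μ) {g : G} {r : ℚ} (hg : ∀ x, (g : Equiv.Perm ℚ) x = x + r) :
    ∃ m : ℤ, (r ≠ 0 → m ≠ 0) ∧ (∀ a b : ℕ, φ ((g ^ b)⁻¹ * g ^ a) =
      ∫ x, (fourier ((a : ℤ) - b) x : ℂ) ∂(zim μ m)) ∧
      ∀ a : ℕ, φ (g ^ a) = ∫ x, (fourier (a : ℤ) x : ℂ) ∂(zim μ m) := by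
  obtain ⟨m, k, hr⟩ := D.six hg
  have hpow : ∀ (n : ℕ) x, ((g ^ n : G) : Equiv.Perm ℚ) x = x + n * r := by
    intro n
    induction n with
    | zero => intro x; simp
    | succ n ih =>
      intro x
      rw [pow_succ, Subgroup.coe_mul, Equiv.Perm.mul_apply, hg, ih]
      push_cast; ring
  have key : ∀ a b : ℕ, φ ((g ^ b)⁻¹ * g ^ a) =
      ∫ x, (fourier ((a : ℤ) - b) x : ℂ) ∂(zim μ m) := by
    intro a b
    rw [fc_zim, D.hμ]
    refine phi_trans D.hτ D.hcl S6 D.hS6 _ (m * ((a : ℤ) - b)) k fun x => ?_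
    rw [Subgroup.coe_mul, Equiv.Perm.mul_apply, Subgroup.coe_inv, Equiv.Perm.inv_eq_iff_eq,
      hpow, hpow, hr]
    push_cast; ring
  refine ⟨m, ?_, key, fun a => ?_⟩
  · rintro hr0 rfl
    apply hr0
    rw [hr]; simp
  · have := key a 0
    simpa using this

/-- the value of `φ` at `P(g)* P(g)` -/
noncomputable def qf (φ : G → ℂ) (P : Polynomial ℂ) (g : G) : ℂ :=
  ∑ i ∈ P.support, ∑ j ∈ P.support, star (P.coeff j) * P.coeff i * φ ((g ^ j)⁻¹ * g ^ i)

end

lemma circle_cond {P : Polynomial ℂ} {d : ℕ}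
    (hd : ∀ z : ℂ, ‖z‖ = 1 → (∀ i j : ℕ, P.eval (z ^ (2 ^ i * 3 ^ j)) = 0) → z ^ d = 1)
    (x : UnitAddCircle) (hx : ∀ i j : ℕ, sqm P ((2 ^ i * 3 ^ j) • x) = 0) : d • x = 0 := by
  have hpow : ∀ k : ℕ, (fourier 1 (k • x) : ℂ) = (fourier 1 x : ℂ) ^ k := by
    intro k
    rw [fourier_one, fourier_one, AddCircle.toCircle_nsmul]
    push_cast; rfl
  have h1 := hd (fourier 1 x) (by rw [fourier_one]; exact Circle.norm_coe _) fun i j => by
    rw [← hpow]
    exact sqm_eq_zero.1 (hx i j)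
  rw [← hpow] at h1
  rw [fourier_one] at h1
  have h2 : AddCircle.toCircle (d • x) = AddCircle.toCircle (0 : UnitAddCircle) := by
    apply Subtype.ext
    rw [AddCircle.toCircle_zero]
    exact h1
  exact AddCircle.injective_toCircle one_ne_zero h2

/-- **Growth.** -/
theorem growth {P : Polynomial ℂ} (hP : P ≠ 0) {d : ℕ} (hd1 : 1 ≤ d)
    (hd : ∀ z : ℂ, ‖z‖ = 1 → (∀ i j : ℕ, P.eval (z ^ (2 ^ i * 3 ^ j)) = 0) → z ^ d = 1)
    {κ : ℝ} (hκ : 0 < κ) : ∃ C : ℝ, 0 < C ∧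
    ∀ (s2 s3 t : Equiv.Perm ℚ), (∀ x : ℚ, s2 x = 2 * x) → (∀ x : ℚ, s3 x = 3 * x) →
    (∀ x : ℚ, t x = x + 1) →
    ∀ (G : Subgroup (Equiv.Perm ℚ)), G = Subgroup.closure {s2, s3, t} →
    ∀ φ : G → ℂ, φ 1 = 1 → (∀ g h : G, φ (h * g * h⁻¹) = φ g) →
      (∀ (s : Finset G) (c : G → ℂ), 0 ≤ ∑ i ∈ s, ∑ j ∈ s, star (c j) * c i * φ (j⁻¹ * i)) →
      ∀ g : G, (∃ r : ℚ, ∀ x : ℚ, (g : Equiv.Perm ℚ) x = x + r) → ∀ n : ℕ, 1 ≤ n →
        1 - (φ (g ^ (d * n))).re ≤ C * (1 + Real.log n) ^ κ * (qf φ P g).re := by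
  obtain ⟨c, hc, hcd⟩ := exists_level hP (d := d) (circle_cond hd)
  obtain ⟨C, hC0, hC⟩ := open_growth (p := 2) (q := 3) le_rfl hκ (Pool.Agent.TH461.FGK.nc23 hκ)
    (isOpen_lt continuous_const (continuous_sqm P)) hd1 hcd
  refine ⟨C * c⁻¹, by positivity, fun s2 s3 t hs2 hs3 ht G hG φ h1 hcl hpd => ?_⟩
  obtain ⟨τ, S6, μ, D⟩ := data_of hs2 hs3 ht hG h1 hcl hpd
  have := D.prob
  rintro g ⟨r, hg⟩ n hn
  obtain ⟨m, -, hm, hm'⟩ := val D hg
  have := prob_zim μ m
  have a1 := hC (zim μ m) inferInstance (mp_zim D.mp2 m) (mp_zim D.mp3 m) n hn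
  have a2 := markov P hc (zim μ m)
  have a3 : (qf φ P g).re = ∫ x, sqm P x ∂(zim μ m) := by
    have e := integral_sqm P (zim μ m)
    have e2 : qf φ P g = ((∫ x, sqm P x ∂(zim μ m) : ℝ) : ℂ) := by
      rw [e]
      unfold qf
      exact sum_congr rfl fun i _ => sum_congr rfl fun j _ => by rw [hm]
    rw [e2, Complex.ofReal_re]
  rw [hm', a3]
  have e3 : ((d * n : ℕ) : ℤ) = (d : ℤ) * n := by push_cast; ring
  rw [e3]
  have h5 : 0 ≤ (1 + Real.log n) ^ κ := by
    apply Real.rpow_nonneg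
    have := Real.log_nonneg (by exact_mod_cast hn : (1 : ℝ) ≤ n)
    linarith
  calc 1 - (∫ x, fourier ((d : ℤ) * n) x ∂(zim μ m)).re
      ≤ C * (1 + Real.log n) ^ κ * (zim μ m).real {y | c < sqm P y} := a1
    _ ≤ C * (1 + Real.log n) ^ κ * (c⁻¹ * ∫ x, sqm P x ∂(zim μ m)) :=
        mul_le_mul_of_nonneg_left a2 (by positivity)
    _ = _ := by ring

/-- such numbers `d` exist -/
theorem exists_d {P : Polynomial ℂ} (hP : P ≠ 0) : ∃ d : ℕ, 1 ≤ d ∧
    ∀ z : ℂ, ‖z‖ = 1 → (∀ i j : ℕ, P.eval (z ^ (2 ^ i * 3 ^ j)) = 0) → z ^ d = 1 := by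
  obtain ⟨x0, hx0⟩ := exists_pos hP
  obtain ⟨d, hd1, hd⟩ := exists_killing (p := 2) (q := 3) le_rfl (by norm_num) irr23
    (isOpen_lt continuous_const (continuous_sqm P)) ⟨x0, hx0⟩
  refine ⟨d, hd1, fun z hz h => ?_⟩
  obtain ⟨x, hx⟩ : ∃ x : UnitAddCircle, (AddCircle.toCircle x : ℂ) = z := by
    refine ⟨((Complex.arg z / (2 * Real.pi) : ℝ) : UnitAddCircle), ?_⟩
    rw [AddCircle.toCircle_apply_mk]
    have e : 2 * Real.pi / 1 * (Complex.arg z / (2 * Real.pi)) = Complex.arg z := by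
      field_simp
    rw [e, Circle.coe_exp]
    have := Complex.norm_mul_exp_arg_mul_I z
    rw [hz] at this
    simpa using this
  have hpow : ∀ k : ℕ, (fourier 1 (k • x) : ℂ) = z ^ k := by
    intro k
    rw [fourier_one, AddCircle.toCircle_nsmul]
    push_cast
    rw [hx]
  have h1 := hd x fun i j hij => by
    have h2 : sqm P ((2 ^ i * 3 ^ j) • x) = 0 := by
      rw [sqm_eq_zero, hpow]
      exact h i j
    change 0 < sqm P ((2 ^ i * 3 ^ j) • x) at hij
    rw [h2] at hij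
    exact lt_irrefl _ hij
  rw [← hpow, h1]
  simp

end Pool.Agent.Q166.TR
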